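import Pool.Agent.R691.VRC.Tree

/-!
# The action of Gersten's group on its tree (for MP_0fe979_al, S00750; helper691)
-/

set_option autoImplicit false

namespace Pool.Agent.R691.VRC

lemma Adj0_smul (g : G) {u v : V} (h : Adj0 u v) : Adj0 (g • u) (g • v) := by
  obtain ⟨x, i, hi, rfl, rfl⟩ := h
  refine ⟨g * x, i, hi, rfl, ?_⟩
  rw [mul_assoc]
  rfl

lemma T_smul (g : G) (u v : V) (h : T.Adj u v) : T.Adj (g • u) (g • v) :=
  h.imp (Adj0_smul g) (Adj0_smul g)

/-- exponent sum of `b` and `c` -/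
def chi0 : F →* Multiplicative ℤ :=
  FreeGroup.lift (fun i : Fin 3 => if i = 0 then 1 else Multiplicative.ofAdd 1)

lemma chi0_of (i : Fin 3) : chi0 (FreeGroup.of i) = if i = 0 then 1 else Multiplicative.ofAdd 1 :=
  FreeGroup.lift_apply_of

lemma chi0_a : chi0 ga = 1 := by
  unfold ga
  rw [chi0_of]; rfl

lemma chi0_phi (z : Multiplicative ℤ) (w : F) : chi0 (phi z w) = chi0 w := by
  have h : chi0.comp (phi z).toMonoidHom = chi0 := by
    apply FreeGroup.ext_hom
    intro i
    show chi0 (phi z (FreeGroup.of i)) = _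
    obtain ⟨k, hk⟩ := phi_s z i
    rw [hk, map_mul, map_zpow, chi0_a, one_zpow, mul_one]
  exact DFunLike.congr_fun h w

/-- the level homomorphism -/
def chi : G →* Multiplicative ℤ where
  toFun x := chi0 x.left
  map_one' := by simp
  map_mul' x y := by
    rw [SemidirectProduct.mul_left, map_mul, chi0_phi]

lemma chi_A {x : G} (h : x ∈ A) : chi x = 1 := by
  obtain ⟨k, hk⟩ := (mem_A x).1 h
  show chi0 x.left = 1
  rw [hk, map_zpow, chi0_a, one_zpow]

lemma chi_il_of (i : Fin 3) (hi : i ≠ 0) : chi (il (FreeGroup.of i)) = Multiplicative.ofAdd 1 := by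
  show chi0 (il (FreeGroup.of i)).left = _
  rw [SemidirectProduct.left_inl, chi0_of, if_neg hi]

lemma chi_eq_of_mk {x y : G} (h : (x : V) = (y : V)) : chi x = chi y := by
  have h1 : x⁻¹ * y ∈ A := QuotientGroup.eq.1 h
  have h2 := chi_A h1
  rw [map_mul, map_inv, inv_mul_eq_one] at h2
  exact h2

lemma no_inv0 (g : G) (u v : V) (h : Adj0 u v) : ¬ (g • u = v ∧ g • v = u) := by
  rintro ⟨h1, h2⟩
  obtain ⟨x, i, hi, rfl, rfl⟩ := h
  have e1 : ((g * x : G) : V) = ((x * il (FreeGroup.of i) : G) : V) := h1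
  have e2 : ((g * (x * il (FreeGroup.of i)) : G) : V) = (x : V) := h2
  have c1 := chi_eq_of_mk e1
  have c2 := chi_eq_of_mk e2
  rw [map_mul, map_mul, chi_il_of i hi] at c1
  rw [map_mul, map_mul, chi_il_of i hi] at c2
  have d1 := congrArg Multiplicative.toAdd c1
  have d2 := congrArg Multiplicative.toAdd c2
  simp only [toAdd_mul, toAdd_ofAdd] at d1 d2
  omega

lemma no_inv (g : G) (u v : V) (h : T.Adj u v) : ¬ (g • u = v ∧ g • v = u) := by
  rcases h with h | h
  · exact no_inv0 g u v h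
  · rintro ⟨h1, h2⟩
    exact no_inv0 g v u h ⟨h2, h1⟩

lemma fin_vertices : ∃ S : Finset V, ∀ v : V, ∃ g : G, g • v ∈ S := by
  classical
  refine ⟨{((1 : G) : V)}, ?_⟩
  intro v
  induction v using QuotientGroup.induction_on with
  | H x =>
    refine ⟨x⁻¹, ?_⟩
    rw [Finset.mem_singleton]
    show ((x⁻¹ * x : G) : V) = _
    rw [inv_mul_cancel]

lemma fin_edges : ∃ E : Finset (V × V), ∀ u v : V, T.Adj u v → ∃ g : G, (g • u, g • v) ∈ E := by
  classical
  refine ⟨(Finset.univ : Finset (Fin 3)).image (fun i => (((1 : G) : V),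
      ((il (FreeGroup.of i) : G) : V))) ∪ (Finset.univ : Finset (Fin 3)).image
      (fun i => (((il (FreeGroup.of i) : G) : V), ((1 : G) : V))), ?_⟩
  have key : ∀ u v : V, Adj0 u v → ∃ g : G, ∃ i : Fin 3, g • u = ((1 : G) : V) ∧
      g • v = ((il (FreeGroup.of i) : G) : V) := by
    rintro u v ⟨x, i, hi, rfl, rfl⟩
    refine ⟨x⁻¹, i, ?_, ?_⟩
    · show ((x⁻¹ * x : G) : V) = _
      rw [inv_mul_cancel]
    · show ((x⁻¹ * (x * il (FreeGroup.of i)) : G) : V) = _
      rw [inv_mul_cancel_left]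
  rintro u v (h | h)
  · obtain ⟨g, i, h1, h2⟩ := key u v h
    refine ⟨g, ?_⟩
    rw [h1, h2]
    exact Finset.mem_union_left _ (Finset.mem_image_of_mem _ (Finset.mem_univ i))
  · obtain ⟨g, i, h1, h2⟩ := key v u h
    refine ⟨g, ?_⟩
    rw [h1, h2]
    exact Finset.mem_union_right _ (Finset.mem_image_of_mem _ (Finset.mem_univ i))

/-- exponent sum of `a` -/
def psi1 : F →* Multiplicative ℤ :=
  FreeGroup.lift (fun i : Fin 3 => if i = 0 then Multiplicative.ofAdd 1 else 1)

/-- translations and reflection -/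
def psi2 : F →* Equiv.Perm ℤ :=
  FreeGroup.lift (fun i : Fin 3 => if i = 0 then Equiv.addRight (1 : ℤ) else Equiv.neg ℤ)

lemma psi1_a_zpow (k : ℤ) : psi1 (ga ^ k) = Multiplicative.ofAdd k := by
  rw [map_zpow]
  have : psi1 ga = Multiplicative.ofAdd 1 := by
    unfold psi1 ga
    rw [FreeGroup.lift_apply_of]; rfl
  rw [this, ← ofAdd_zsmul]
  simp

lemma addRight_zpow (k : ℤ) : (Equiv.addRight (1 : ℤ)) ^ k = Equiv.addRight k := by
  induction k using Int.induction_on with
  | zero => ext x; simp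
  | succ n ih =>
    rw [zpow_add_one, ih]
    ext x
    show x + 1 + (n : ℤ) = x + ((n : ℤ) + 1)
    ring
  | pred n ih =>
    rw [zpow_sub_one, ih]
    ext x
    show x + -1 + (-(n : ℤ)) = x + (-(n : ℤ) - 1)
    ring

lemma psi2_a_zpow (k : ℤ) : psi2 (ga ^ k) = Equiv.addRight k := by
  rw [map_zpow]
  have : psi2 ga = Equiv.addRight 1 := by
    unfold psi2 ga
    rw [FreeGroup.lift_apply_of]; rfl
  rw [this, addRight_zpow]

lemma ga_zpow_inj {k m : ℤ} (h : ga ^ k = ga ^ m) : k = m := by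
  have := congrArg psi1 h
  rw [psi1_a_zpow, psi1_a_zpow] at this
  exact this

lemma conj_a_zpow (i : Fin 3) (hi : i ≠ 0) (k m : ℤ)
    (h : (FreeGroup.of i)⁻¹ * ga ^ k * FreeGroup.of i = ga ^ m) : k = 0 := by
  have h1 := congrArg psi1 h
  have h2 := congrArg psi2 h
  rw [map_mul, map_mul, map_inv, psi1_a_zpow, psi1_a_zpow, mul_comm, mul_inv_cancel_left] at h1
  rw [map_mul, map_mul, map_inv, psi2_a_zpow, psi2_a_zpow] at h2
  have h3 : psi2 (FreeGroup.of i) = Equiv.neg ℤ := by
    unfold psi2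
    rw [FreeGroup.lift_apply_of, if_neg hi]
  rw [h3] at h2
  have h4 := DFunLike.congr_fun h2 0
  have h5 : (((Equiv.neg ℤ)⁻¹ * Equiv.addRight k * Equiv.neg ℤ : Equiv.Perm ℤ)) 0 = - k := by
    show (Equiv.neg ℤ).symm (Equiv.addRight k (Equiv.neg ℤ 0)) = -k
    simp
  rw [h5] at h4
  have h6 : (Equiv.addRight m : Equiv.Perm ℤ) 0 = m := by simp
  rw [h6] at h4
  have h7 : k = m := h1
  omega

lemma homA_inj : Function.Injective homA := by
  intro v w h
  have h1 := congrArg SemidirectProduct.left h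
  have h2 := congrArg SemidirectProduct.right h
  have h3 : Multiplicative.toAdd v 0 = Multiplicative.toAdd w 0 := ga_zpow_inj h1
  have h4 : Multiplicative.toAdd v 1 = Multiplicative.toAdd w 1 := h2
  apply Multiplicative.toAdd.injective
  funext i
  fin_cases i
  · exact h3
  · exact h4

lemma stab_free (v : V) : ∃ n : ℕ,
    Nonempty (↥(MulAction.stabilizer G v) ≃* Multiplicative (Fin n → ℤ)) := by
  induction v using QuotientGroup.induction_on with
  | H x =>
    refine ⟨2, ⟨?_⟩⟩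
    have hx : (x : V) = x • ((1 : G) : V) := by
      show (x : V) = ((x * 1 : G) : V)
      rw [mul_one]
    have e1 := MulAction.stabilizerEquivStabilizer hx
    have e2 : MulAction.stabilizer G ((1 : G) : V) ≃* A :=
      MulEquiv.subgroupCongr (MulAction.stabilizer_quotient A)
    have e3 : Multiplicative (Fin 2 → ℤ) ≃* A := MonoidHom.ofInjective homA_inj
    exact e1.symm.trans (e2.trans e3.symm)

lemma mem_stab {g x : G} (h : g ∈ MulAction.stabilizer G (x : V)) : x⁻¹ * g * x ∈ A := by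
  have h1 : ((g * x : G) : V) = (x : V) := h
  rw [eq_comm, QuotientGroup.eq] at h1
  rwa [mul_assoc]

lemma edge_cyclic0 (u v : V) (h : Adj0 u v) :
    IsCyclic ↥(MulAction.stabilizer G u ⊓ MulAction.stabilizer G v) := by
  obtain ⟨x, i, hi, rfl, rfl⟩ := h
  set H := MulAction.stabilizer G (x : V) ⊓
    MulAction.stabilizer G ((x * il (FreeGroup.of i) : G) : V) with hH
  apply isCyclic_of_injective
    ((SemidirectProduct.rightHom : G →* Multiplicative ℤ).comp H.subtype)
  rw [injective_iff_map_eq_one]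
  rintro ⟨g, hg⟩ hr
  have hr' : g.right = 1 := hr
  have h1 := mem_stab hg.1
  have h2 := mem_stab hg.2
  set y := x⁻¹ * g * x with hy
  have h3 : (x * il (FreeGroup.of i))⁻¹ * g * (x * il (FreeGroup.of i)) =
      (il (FreeGroup.of i))⁻¹ * y * il (FreeGroup.of i) := by
    rw [hy]; group
  rw [h3] at h2
  have hyr : y.right = 1 := by
    rw [hy]
    simp [hr']
  obtain ⟨k, hk⟩ := (mem_A _).1 h1
  have hy2 : y = il (ga ^ k) := by
    apply SemidirectProduct.ext
    · rw [hk]; rfl
    · rw [hyr]; rfl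
  obtain ⟨m, hm⟩ := (mem_A _).1 h2
  rw [hy2, ← map_inv, ← map_mul, ← map_mul, SemidirectProduct.left_inl] at hm
  have hk0 := conj_a_zpow i hi k m hm
  have hy2 : y = 1 := by
    rw [hy2, hk0, zpow_zero]
    exact map_one _
  have hg1 : g = 1 := by
    have : g = x * y * x⁻¹ := by rw [hy]; group
    rw [this, hy2]; group
  exact Subtype.ext hg1

lemma edge_cyclic (u v : V) (h : T.Adj u v) :
    IsCyclic ↥(MulAction.stabilizer G u ⊓ MulAction.stabilizer G v) := by
  rcases h with h | h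
  · exact edge_cyclic0 u v h
  · have h1 := edge_cyclic0 v u h
    rwa [inf_comm] at h1

end Pool.Agent.R691.VRC
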