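import Pool.Agent.R691.VRC.Grp

/-!
# Gersten's group is cyclic subgroup separable (for MP_0fe979_al, S00750; helper691)
-/

set_option autoImplicit false

namespace Pool.Agent.R691.VRC

lemma of_finite {Γ P : Type*} [Group Γ] [Group P] [Finite P] (π : Γ →* P) (Q : Subgroup P)
    {g h : Γ} (hg : π g ∈ Q) (hn : π h ∉ Q) :
    ∃ K : Subgroup Γ, K.FiniteIndex ∧ Subgroup.zpowers g ≤ K ∧ h ∉ K := by
  refine ⟨Q.comap π, ?_, ?_, hn⟩
  · have h1 : π.ker.FiniteIndex := Subgroup.finiteIndex_ker π
    exact Subgroup.finiteIndex_of_le (H := π.ker) (π.ker_le_comap Q)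
  · rw [Subgroup.zpowers_le]
    exact hg

/-- cyclic subgroups of free groups are separable (Marshall Hall) -/
lemma marshall (w1 w2 : F) (h : w2 ∉ Subgroup.zpowers w1) :
    ∃ (X : Type) (_ : Finite X) (σ : F →* Equiv.Perm X) (x0 : X), σ w1 x0 = x0 ∧ σ w2 x0 ≠ x0 := by
  classical
  let Ω : Type := F ⧸ Subgroup.zpowers w1
  let o : Ω := ((1 : F) : Ω)
  let S : Finset Ω :=
    ((w1.toWord.tails ++ w2.toWord.tails).map (fun L => (FreeGroup.mk L : F) • o)).toFinset
  have hS1 : ∀ L ∈ w1.toWord.tails, (FreeGroup.mk L : F) • o ∈ S := by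
    intro L hL
    rw [List.mem_toFinset]
    exact List.mem_map_of_mem (List.mem_append_left _ hL)
  have hS2 : ∀ L ∈ w2.toWord.tails, (FreeGroup.mk L : F) • o ∈ S := by
    intro L hL
    rw [List.mem_toFinset]
    exact List.mem_map_of_mem (List.mem_append_right _ hL)
  have ho : o ∈ S := by
    have h1 := hS1 [] (by simp)
    have h2 : (FreeGroup.mk [] : F) = 1 := rfl
    rwa [h2, one_smul] at h1
  let X : Type := {x : Ω // x ∈ S}
  let e : (i : Fin 3) → {x : X // (FreeGroup.of i : F) • x.1 ∈ S} ≃
      {y : X // (FreeGroup.of i : F)⁻¹ • y.1 ∈ S} := fun i =>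
    { toFun := fun x => ⟨⟨(FreeGroup.of i : F) • x.1.1, x.2⟩, by
        rw [inv_smul_smul]; exact x.1.2⟩
      invFun := fun y => ⟨⟨(FreeGroup.of i : F)⁻¹ • y.1.1, y.2⟩, by
        rw [smul_inv_smul]; exact y.1.2⟩
      left_inv := by
        intro x
        apply Subtype.ext
        apply Subtype.ext
        simp
      right_inv := by
        intro x
        apply Subtype.ext
        apply Subtype.ext
        simp }
  let σ : F →* Equiv.Perm X := FreeGroup.lift (fun i => (e i).extendSubtype)
  have hσ : ∀ i, σ (FreeGroup.of i) = (e i).extendSubtype := fun i => FreeGroup.lift_apply_of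
  have hσ1 : ∀ (i : Fin 3) (x : X) (_ : (FreeGroup.of i : F) • x.1 ∈ S),
      (σ (FreeGroup.of i) x).1 = (FreeGroup.of i : F) • x.1 := by
    intro i x hx
    rw [hσ, Equiv.extendSubtype_apply_of_mem (e i) x hx]
    rfl
  have hσ2 : ∀ (i : Fin 3) (x : X) (_ : (FreeGroup.of i : F)⁻¹ • x.1 ∈ S),
      (σ (FreeGroup.of i)⁻¹ x).1 = (FreeGroup.of i : F)⁻¹ • x.1 := by
    intro i x hx
    let y : X := ⟨(FreeGroup.of i : F)⁻¹ • x.1, hx⟩
    have h1 : σ (FreeGroup.of i) y = x := by
      apply Subtype.ext
      have h2 := hσ1 i y (by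
        show (FreeGroup.of i : F) • (FreeGroup.of i : F)⁻¹ • x.1 ∈ S
        rw [smul_inv_smul]; exact x.2)
      rw [h2]
      show (FreeGroup.of i : F) • (FreeGroup.of i : F)⁻¹ • x.1 = x.1
      rw [smul_inv_smul]
    have h3 : (σ (FreeGroup.of i))⁻¹ x = y := by
      rw [← h1]
      exact (σ (FreeGroup.of i)).symm_apply_apply y
    rw [map_inv, h3]
  have key : ∀ L : List (Fin 3 × Bool), (∀ L' ∈ L.tails, (FreeGroup.mk L' : F) • o ∈ S) →
      (σ (FreeGroup.mk L) ⟨o, ho⟩).1 = (FreeGroup.mk L : F) • o := by
    intro L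
    induction L with
    | nil =>
      intro _
      have h2 : (FreeGroup.mk [] : F) = 1 := rfl
      rw [h2, map_one, one_smul]
      rfl
    | cons p L ih =>
      intro hL
      have h1 := ih (fun L' hL' => hL L' (by
        rw [List.tails_cons]; exact List.mem_cons_of_mem _ hL'))
      have h2 : (FreeGroup.mk (p :: L) : F) = FreeGroup.mk [p] * FreeGroup.mk L := rfl
      have h3 : (FreeGroup.mk (p :: L) : F) • o ∈ S := hL (p :: L) (by
        rw [List.tails_cons]; exact List.mem_cons_self)
      rw [h2, mul_smul, ← h1] at h3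
      rw [h2, map_mul, mul_smul, ← h1, Equiv.Perm.mul_apply]
      obtain ⟨i, b⟩ := p
      cases b with
      | true => exact hσ1 i _ h3
      | false => exact hσ2 i _ h3
  refine ⟨X, inferInstance, σ, ⟨o, ho⟩, ?_, ?_⟩
  · apply Subtype.ext
    have h1 := key w1.toWord hS1
    rw [FreeGroup.mk_toWord] at h1
    rw [h1]
    show ((w1 * 1 : F) : Ω) = ((1 : F) : Ω)
    rw [mul_one, eq_comm, QuotientGroup.eq, inv_one, one_mul]
    exact Subgroup.mem_zpowers w1
  · intro h0
    have h1 := key w2.toWord hS2
    rw [FreeGroup.mk_toWord, h0] at h1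
    have h2 : ((1 : F) : Ω) = ((w2 * 1 : F) : Ω) := h1
    rw [mul_one, QuotientGroup.eq, inv_one, one_mul] at h2
    exact h h2

/-- twisting of a permutation representation -/
def pull {X : Type} (σ : F →* Equiv.Perm X) (z : Multiplicative ℤ) : F →* Equiv.Perm X :=
  σ.comp (phi z⁻¹).toMonoidHom

lemma pull_apply {X : Type} (σ : F →* Equiv.Perm X) (z : Multiplicative ℤ) (w : F) :
    pull σ z w = σ (phi z⁻¹ w) := rfl

lemma pull_mul {X : Type} (σ : F →* Equiv.Perm X) (z z' : Multiplicative ℤ) :
    pull σ (z * z') = pull (pull σ z') z := by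
  apply MonoidHom.ext
  intro w
  rw [pull_apply, pull_apply, pull_apply, mul_inv_rev, map_mul, MulAut.mul_apply]

lemma pull_one {X : Type} (σ : F →* Equiv.Perm X) : pull σ 1 = σ := by
  apply MonoidHom.ext
  intro w
  rw [pull_apply, inv_one, map_one, MulAut.one_apply]

lemma pull_phi {X : Type} (σ : F →* Equiv.Perm X) (z : Multiplicative ℤ) (w : F) :
    pull σ z (phi z w) = σ w := by
  rw [pull_apply, map_inv, MulAut.inv_apply_self]

/-- the action on permutation representations with a point -/
@[reducible] def Yact (X : Type) : MulAction G ((F →* Equiv.Perm X) × X) where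
  smul g y := (pull y.1 g.right, pull y.1 g.right g.left y.2)
  one_smul y := by
    show (pull y.1 1, pull y.1 1 1 y.2) = y
    rw [pull_one, map_one]
    rfl
  mul_smul g g' y := by
    show (pull y.1 (g.right * g'.right), pull y.1 (g.right * g'.right) (g * g').left y.2) =
      (pull (pull y.1 g'.right) g.right, pull (pull y.1 g'.right) g.right g.left
        (pull y.1 g'.right g'.left y.2))
    rw [pull_mul, SemidirectProduct.mul_left, map_mul, pull_phi]
    rfl

/-- the permutation representation of `G` -/
noncomputable def rep (X : Type) : G →* Equiv.Perm ((F →* Equiv.Perm X) × X) :=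
  @MulAction.toPermHom G _ _ (Yact X)

lemma rep_inl (X : Type) (w : F) (σ : F →* Equiv.Perm X) (x : X) :
    rep X (SemidirectProduct.inl w) (σ, x) = (σ, σ w x) := by
  show (pull σ 1, pull σ 1 w x) = (σ, σ w x)
  rw [pull_one]

lemma finite_hom (X : Type) [Finite X] : Finite (F →* Equiv.Perm X) :=
  Finite.of_equiv (Fin 3 → Equiv.Perm X) FreeGroup.lift

lemma eq_inl (g : G) (h : g.right = 1) : g = SemidirectProduct.inl g.left := by
  apply SemidirectProduct.ext
  · rfl
  · rw [h]; rfl

theorem css (g h : G) (hgh : h ∉ Subgroup.zpowers g) :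
    ∃ K : Subgroup G, K.FiniteIndex ∧ Subgroup.zpowers g ≤ K ∧ h ∉ K := by
  by_cases hd : ∃ n : ℕ, n ≠ 0 ∧ (n : ℤ) ∣ Multiplicative.toAdd g.right ∧
      ¬ (n : ℤ) ∣ Multiplicative.toAdd h.right
  · obtain ⟨n, hn, h1, h2⟩ := hd
    have : NeZero n := ⟨hn⟩
    have : Finite (Multiplicative (ZMod n)) := inferInstanceAs (Finite (ZMod n))
    refine of_finite ((AddMonoidHom.toMultiplicative (Int.castAddHom (ZMod n))).comp
      (SemidirectProduct.rightHom : G →* Multiplicative ℤ)) ⊥ ?_ ?_
    · rw [Subgroup.mem_bot]
      show Multiplicative.ofAdd ((Multiplicative.toAdd g.right : ℤ) : ZMod n) =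
        Multiplicative.ofAdd 0
      rw [(ZMod.intCast_zmod_eq_zero_iff_dvd _ _).2 h1]
    · rw [Subgroup.mem_bot]
      intro h3
      apply h2
      have h4 : Multiplicative.ofAdd ((Multiplicative.toAdd h.right : ℤ) : ZMod n) =
        Multiplicative.ofAdd 0 := h3
      exact (ZMod.intCast_zmod_eq_zero_iff_dvd _ _).1 (Multiplicative.ofAdd.injective h4)
  · push Not at hd
    by_cases hk : Multiplicative.toAdd g.right = 0
    · have hl : Multiplicative.toAdd h.right = 0 := by
        have h1 := hd ((Multiplicative.toAdd h.right).natAbs + 1) (by omega)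
          (by rw [hk]; exact dvd_zero _)
        by_contra h2
        have h3 := Int.le_of_dvd (by positivity : (0 : ℤ) < |Multiplicative.toAdd h.right|)
          ((dvd_abs _ _).2 h1)
        rw [Int.abs_eq_natAbs] at h3
        omega
      have hg1 := eq_inl g hk
      have hh1 := eq_inl h hl
      have hw : h.left ∉ Subgroup.zpowers g.left := by
        rintro ⟨j, hj⟩
        apply hgh
        refine ⟨j, ?_⟩
        have hj' : g.left ^ j = h.left := hj
        show g ^ j = h
        rw [hg1, hh1, ← map_zpow, hj']
      obtain ⟨X, hX, σ, x0, h1, h2⟩ := marshall g.left h.left hw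
      have := finite_hom X
      refine of_finite (rep X) (MulAction.stabilizer (Equiv.Perm ((F →* Equiv.Perm X) × X))
        ((σ, x0) : (F →* Equiv.Perm X) × X)) ?_ ?_
      · rw [MulAction.mem_stabilizer_iff, hg1]
        show rep X (SemidirectProduct.inl g.left) (σ, x0) = (σ, x0)
        rw [rep_inl, h1]
      · rw [MulAction.mem_stabilizer_iff, hh1]
        intro h3
        have h4 : rep X (SemidirectProduct.inl h.left) (σ, x0) = (σ, x0) := h3
        rw [rep_inl] at h4
        exact h2 (congrArg Prod.snd h4)
    · have hkl := hd (Multiplicative.toAdd g.right).natAbs (by omega)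
        (by rw [Int.natCast_natAbs, abs_dvd])
      rw [Int.natCast_natAbs, abs_dvd] at hkl
      obtain ⟨m, hm⟩ := hkl
      set f : G := g ^ (-m) * h with hf
      have hfr : f.right = 1 := by
        have h1 : f.right = (g ^ (-m)).right * h.right := rfl
        have h2 : (g ^ (-m)).right = g.right ^ (-m) :=
          map_zpow (SemidirectProduct.rightHom : G →* Multiplicative ℤ) g (-m)
        rw [h1, h2]
        apply Multiplicative.toAdd.injective
        rw [toAdd_mul, toAdd_zpow, hm, toAdd_one, smul_eq_mul]
        ring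
      have hf1 := eq_inl f hfr
      have hfne : f ≠ 1 := by
        intro h1
        apply hgh
        refine ⟨m, ?_⟩
        rw [hf, zpow_neg, inv_mul_eq_one] at h1
        exact h1
      have hw : f.left ∉ Subgroup.zpowers (1 : F) := by
        rw [Subgroup.zpowers_one_eq_bot, Subgroup.mem_bot]
        intro h1
        apply hfne
        rw [hf1, h1, map_one]
      obtain ⟨X, hX, σ, x0, -, h2⟩ := marshall 1 f.left hw
      have := finite_hom X
      have hpf : rep X f ≠ 1 := by
        intro h1
        rw [hf1] at h1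
        have h3 : rep X (SemidirectProduct.inl f.left) (σ, x0) = (σ, x0) := by rw [h1]; rfl
        rw [rep_inl] at h3
        exact h2 (congrArg Prod.snd h3)
      have hMpos : 0 < orderOf (rep X g) := orderOf_pos (rep X g)
      set M := orderOf (rep X g) with hM
      set n : ℕ := (Multiplicative.toAdd g.right).natAbs * M with hn
      have hn0 : n ≠ 0 := by
        rw [hn]
        have : (Multiplicative.toAdd g.right).natAbs ≠ 0 := by omega
        exact Nat.mul_ne_zero this (by omega)
      have : NeZero n := ⟨hn0⟩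
      have : Finite (Multiplicative (ZMod n)) := inferInstanceAs (Finite (ZMod n))
      refine of_finite ((rep X).prod ((AddMonoidHom.toMultiplicative
        (Int.castAddHom (ZMod n))).comp (SemidirectProduct.rightHom : G →* Multiplicative ℤ)))
        (Subgroup.zpowers (((rep X).prod ((AddMonoidHom.toMultiplicative
        (Int.castAddHom (ZMod n))).comp
          (SemidirectProduct.rightHom : G →* Multiplicative ℤ))) g)) ?_ ?_
      · exact Subgroup.mem_zpowers _
      · rintro ⟨j, hj⟩
        have hj' : (rep X g, Multiplicative.ofAdd ((Multiplicative.toAdd g.right : ℤ) : ZMod n)) ^ j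
          = (rep X h, Multiplicative.ofAdd ((Multiplicative.toAdd h.right : ℤ) : ZMod n)) := hj
        have hj1 : (rep X g) ^ j = rep X h := congrArg Prod.fst hj'
        have hj2 : (Multiplicative.ofAdd ((Multiplicative.toAdd g.right : ℤ) : ZMod n)) ^ j =
          Multiplicative.ofAdd ((Multiplicative.toAdd h.right : ℤ) : ZMod n) :=
          congrArg Prod.snd hj'
        rw [← ofAdd_zsmul] at hj2
        have hj3 := Multiplicative.ofAdd.injective hj2
        rw [zsmul_eq_mul, ← Int.cast_mul, ZMod.intCast_eq_intCast_iff_dvd_sub, hm] at hj3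
        have hj4 : (n : ℤ) ∣ Multiplicative.toAdd g.right * (m - j) := by
          have : Multiplicative.toAdd g.right * m - j * Multiplicative.toAdd g.right =
            Multiplicative.toAdd g.right * (m - j) := by ring
          rwa [this] at hj3
        have hj5 : (M : ℤ) ∣ m - j := by
          rw [hn, Nat.cast_mul, Int.natCast_natAbs] at hj4
          have h5 : |Multiplicative.toAdd g.right| * (M : ℤ) ∣
              |Multiplicative.toAdd g.right| * (m - j) := by
            rcases abs_choice (Multiplicative.toAdd g.right) with h6 | h6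
            · rw [h6] at hj4 ⊢; exact hj4
            · rw [h6] at hj4 ⊢
              rw [neg_mul, neg_mul, neg_dvd, dvd_neg]
              rw [neg_mul, neg_dvd] at hj4
              exact hj4
          exact Int.dvd_of_mul_dvd_mul_left (by positivity) h5
        have hj6 : (rep X g) ^ (m - j) = 1 := by
          rw [← orderOf_dvd_iff_zpow_eq_one]
          exact hj5
        apply hpf
        rw [hf, map_mul, map_zpow, ← hj1, ← zpow_add]
        have : -m + j = -(m - j) := by ring
        rw [this, zpow_neg, hj6, inv_one]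

end Pool.Agent.R691.VRC
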