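import Mathlib

/-!
# Gersten's group `F_3 ⋊ ℤ` (for MP_0fe979_al, S00750; helper691)

`t` acts by `a ↦ a`, `b ↦ b a`, `c ↦ c a ^ 2`.
-/

set_option autoImplicit false

namespace Pool.Agent.R691.VRC

/-- the free group of rank three -/
abbrev F : Type := FreeGroup (Fin 3)

def ga : F := FreeGroup.of 0
def gb : F := FreeGroup.of 1
def gc : F := FreeGroup.of 2

def alphaHom : F →* F := FreeGroup.lift ![ga, gb * ga, gc * ga ^ 2]
def alphaInvHom : F →* F := FreeGroup.lift ![ga, gb * ga⁻¹, gc * (ga ^ 2)⁻¹]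

@[simp] lemma alphaHom_a : alphaHom ga = ga := by simp [alphaHom, ga]
@[simp] lemma alphaHom_b : alphaHom gb = gb * ga := by
  show FreeGroup.lift ![ga, gb * ga, gc * ga ^ 2] (FreeGroup.of 1) = _
  rw [FreeGroup.lift_apply_of]; rfl
@[simp] lemma alphaHom_c : alphaHom gc = gc * ga ^ 2 := by
  show FreeGroup.lift ![ga, gb * ga, gc * ga ^ 2] (FreeGroup.of 2) = _
  rw [FreeGroup.lift_apply_of]; rfl
@[simp] lemma alphaInvHom_a : alphaInvHom ga = ga := by simp [alphaInvHom, ga]
@[simp] lemma alphaInvHom_b : alphaInvHom gb = gb * ga⁻¹ := by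
  show FreeGroup.lift ![ga, gb * ga⁻¹, gc * (ga ^ 2)⁻¹] (FreeGroup.of 1) = _
  rw [FreeGroup.lift_apply_of]; rfl
@[simp] lemma alphaInvHom_c : alphaInvHom gc = gc * (ga ^ 2)⁻¹ := by
  show FreeGroup.lift ![ga, gb * ga⁻¹, gc * (ga ^ 2)⁻¹] (FreeGroup.of 2) = _
  rw [FreeGroup.lift_apply_of]; rfl

lemma hom_ext3 {H : Type*} [Group H] {f g : F →* H} (h0 : f ga = g ga) (h1 : f gb = g gb)
    (h2 : f gc = g gc) : f = g := by
  apply FreeGroup.ext_hom
  intro i
  fin_cases i
  · exact h0
  · exact h1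
  · exact h2

/-- the automorphism -/
def alpha : MulAut F :=
  MonoidHom.toMulEquiv alphaHom alphaInvHom
    (hom_ext3 (by simp) (by simp) (by simp))
    (hom_ext3 (by simp) (by simp) (by simp))

@[simp] lemma alpha_a : alpha ga = ga := alphaHom_a
@[simp] lemma alpha_b : alpha gb = gb * ga := alphaHom_b
@[simp] lemma alpha_c : alpha gc = gc * ga ^ 2 := alphaHom_c

lemma alpha_zpow_a (n : ℤ) : (alpha ^ n) ga = ga := by
  have h : alpha ∈ MulAction.stabilizer (MulAut F) ga := alpha_a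
  exact Subgroup.zpow_mem _ h n

lemma alpha_zpow_b (n : ℤ) : (alpha ^ n) gb = gb * ga ^ n := by
  induction n using Int.induction_on with
  | zero => simp
  | succ n ih =>
    rw [zpow_add_one, MulAut.mul_apply, alpha_b, map_mul, ih, alpha_zpow_a, zpow_add_one, mul_assoc]
  | pred n ih =>
    have h : (alpha⁻¹) gb = gb * ga⁻¹ := alphaInvHom_b
    rw [zpow_sub_one, MulAut.mul_apply, h, map_mul, map_inv, ih, alpha_zpow_a, zpow_sub_one,
      mul_assoc]

lemma alpha_zpow_c (n : ℤ) : (alpha ^ n) gc = gc * ga ^ (2 * n) := by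
  induction n using Int.induction_on with
  | zero => simp
  | succ n ih =>
    rw [zpow_add_one, MulAut.mul_apply, alpha_c, map_mul, ih, map_pow, alpha_zpow_a, mul_assoc,
      mul_add, zpow_add]
    norm_num
  | pred n ih =>
    have h : (alpha⁻¹) gc = gc * (ga ^ 2)⁻¹ := alphaInvHom_c
    rw [zpow_sub_one, MulAut.mul_apply, h, map_mul, map_inv, ih, map_pow, alpha_zpow_a, mul_sub,
      zpow_sub, mul_assoc]
    norm_num

/-- the action of `ℤ` -/
def phi : Multiplicative ℤ →* MulAut F := zpowersHom _ alpha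

lemma phi_apply (z : Multiplicative ℤ) : phi z = alpha ^ (Multiplicative.toAdd z) := rfl

/-- Gersten's group -/
abbrev G : Type := F ⋊[phi] Multiplicative ℤ

lemma phi_a (z : Multiplicative ℤ) : phi z ga = ga := alpha_zpow_a _

lemma phi_azpow (z : Multiplicative ℤ) (k : ℤ) : phi z (ga ^ k) = ga ^ k := by
  rw [map_zpow, phi_a]

/-- the vertex group -/
def homA : Multiplicative (Fin 2 → ℤ) →* G where
  toFun v := ⟨ga ^ (Multiplicative.toAdd v 0), Multiplicative.ofAdd (Multiplicative.toAdd v 1)⟩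
  map_one' := by
    apply SemidirectProduct.ext
    · simp
    · simp
  map_mul' v w := by
    apply SemidirectProduct.ext
    · rw [SemidirectProduct.mul_left, phi_azpow]
      show ga ^ (Multiplicative.toAdd v 0 + Multiplicative.toAdd w 0) = _
      rw [zpow_add]
    · rfl

def A : Subgroup G := homA.range

lemma mem_A (x : G) : x ∈ A ↔ ∃ k : ℤ, x.left = ga ^ k := by
  constructor
  · rintro ⟨v, rfl⟩
    exact ⟨_, rfl⟩
  · rintro ⟨k, hk⟩
    refine ⟨Multiplicative.ofAdd ![k, Multiplicative.toAdd x.right], ?_⟩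
    apply SemidirectProduct.ext
    · rw [hk]; rfl
    · rfl

end Pool.Agent.R691.VRC
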