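import Pool.Agent.R691.VRC.Grp

/-!
# The tree of Gersten's group (for MP_0fe979_al, S00750; helper691)
-/

set_option autoImplicit false

namespace Pool.Agent.R691.VRC

/-- a graph with a height and a parent function is acyclic -/
theorem acyclic_of_height {V : Type*} (T : SimpleGraph V) (H : V → ℕ) (P : V → V)
    (h : ∀ u v, T.Adj u v → (H v = H u + 1 ∧ P v = u) ∨ (H u = H v + 1 ∧ P u = v)) :
    T.IsAcyclic := by
  classical
  intro v c hc
  obtain ⟨x, hx, hmax⟩ := Finset.exists_max_image c.support.toFinset H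
    ⟨v, by simp⟩
  rw [List.mem_toFinset] at hx
  set d := c.rotate x hx with hd
  have hdc : d.IsCycle := hc.rotate hx
  have hsub : ∀ y ∈ d.support, y ∈ c.support := by
    intro y hy
    rwa [hd, SimpleGraph.Walk.mem_support_rotate_iff] at hy
  have hnil : ¬ d.Nil := hdc.not_nil
  have h1 : T.Adj x d.snd := d.adj_snd hnil
  have h2 : T.Adj d.penultimate x := d.adj_penultimate hnil
  have hs1 : d.snd ∈ d.support := d.getVert_mem_support 1
  have hs2 : d.penultimate ∈ d.support := d.getVert_mem_support _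
  have hle1 : H d.snd ≤ H x := hmax _ (List.mem_toFinset.2 (hsub _ hs1))
  have hle2 : H d.penultimate ≤ H x := hmax _ (List.mem_toFinset.2 (hsub _ hs2))
  have e1 : P x = d.snd := by
    rcases h _ _ h1 with h3 | h3
    · omega
    · exact h3.2
  have e2 : P x = d.penultimate := by
    rcases h _ _ h2 with h3 | h3
    · exact h3.2
    · omega
  exact hdc.snd_ne_penultimate (e1.symm.trans e2)

/-- multiplication of a reduced word by a letter -/
lemma toWord_cons (p : Fin 3 × Bool) (u : F) :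
    (FreeGroup.mk [p] * u).toWord = p :: u.toWord ∨
      ∃ tl, u.toWord = (p.1, !p.2) :: tl ∧ (FreeGroup.mk [p] * u).toWord = tl := by
  have h : (FreeGroup.mk [p] * u).toWord = FreeGroup.reduce (p :: u.toWord) := by
    conv_lhs => rw [← FreeGroup.mk_toWord (x := u), FreeGroup.mul_mk, FreeGroup.toWord_mk]
    rfl
  rw [h, FreeGroup.reduce.cons, FreeGroup.reduce_toWord]
  rcases hu : u.toWord with _ | ⟨hd, tl⟩
  · left; rfl
  · by_cases hc : p.1 = hd.1 ∧ p.2 = !hd.2
    · right
      refine ⟨tl, ?_, ?_⟩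
      · congr 1
        apply Prod.ext
        · exact hc.1.symm
        · simp [hc.2]
      · simp [hc]
    · left
      simp [hc]

/-- the letter is `a` or its inverse -/
def isA (p : Fin 3 × Bool) : Bool := decide (p.1 = 0)

/-- number of letters different from `a` -/
def cnt (L : List (Fin 3 × Bool)) : ℕ := L.countP (fun p => ! isA p)

def ht (w : F) : ℕ := cnt (w⁻¹.toWord)

def dw (w : F) : List (Fin 3 × Bool) := (w⁻¹.toWord).dropWhile isA

def pr (w : F) : F := (FreeGroup.mk (dw w).tail)⁻¹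

lemma ht_dw_mul_a (w : F) (e : Bool) :
    ht (w * (FreeGroup.mk [((0 : Fin 3), e)])⁻¹) = ht w ∧
      dw (w * (FreeGroup.mk [((0 : Fin 3), e)])⁻¹) = dw w := by
  unfold ht dw
  rw [mul_inv_rev, inv_inv]
  rcases toWord_cons ((0 : Fin 3), e) w⁻¹ with h | ⟨tl, h1, h2⟩
  · rw [h]
    simp [cnt, isA]
  · rw [h1, h2]
    simp [cnt, isA]

lemma mk_a (e : Bool) : FreeGroup.mk [((0 : Fin 3), e)] = if e then ga else ga⁻¹ := by
  cases e
  · rfl
  · rfl

lemma ht_dw_mul_zpow (w : F) (k : ℤ) : ht (w * ga ^ k) = ht w ∧ dw (w * ga ^ k) = dw w := by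
  induction k using Int.induction_on with
  | zero => simp
  | succ n ih =>
    rw [zpow_add_one, ← mul_assoc]
    have h := ht_dw_mul_a (w * ga ^ (n : ℤ)) false
    rw [mk_a] at h
    simp only [Bool.false_eq_true, if_false, inv_inv] at h
    exact ⟨h.1.trans ih.1, h.2.trans ih.2⟩
  | pred n ih =>
    rw [zpow_sub_one, ← mul_assoc]
    have h := ht_dw_mul_a (w * ga ^ (-(n : ℤ))) true
    rw [mk_a] at h
    simp only [if_true] at h
    exact ⟨h.1.trans ih.1, h.2.trans ih.2⟩

lemma ht_mul_zpow (w : F) (k : ℤ) : ht (w * ga ^ k) = ht w := (ht_dw_mul_zpow w k).1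

lemma pr_mul_zpow (w : F) (k : ℤ) : pr (w * ga ^ k) = pr w := by
  unfold pr
  rw [(ht_dw_mul_zpow w k).2]

lemma ht_pr_step (w : F) (i : Fin 3) (hi : i ≠ 0) :
    (ht (w * FreeGroup.of i) = ht w + 1 ∧ pr (w * FreeGroup.of i) = w) ∨
      (ht w = ht (w * FreeGroup.of i) + 1 ∧ pr w = w * FreeGroup.of i) := by
  have hw : (w * FreeGroup.of i)⁻¹ = FreeGroup.mk [(i, false)] * w⁻¹ := by
    rw [mul_inv_rev]
    rfl
  rcases toWord_cons (i, false) w⁻¹ with h | ⟨tl, h1, h2⟩
  · left
    unfold ht pr dw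
    rw [hw, h]
    constructor
    · simp [cnt, isA, hi]
    · rw [List.dropWhile_cons_of_neg (by simp [isA, hi]), List.tail_cons, FreeGroup.mk_toWord,
        inv_inv]
  · right
    unfold ht pr dw
    rw [hw, h1, h2]
    constructor
    · simp [cnt, isA, hi]
    · rw [List.dropWhile_cons_of_neg (by simp [isA, hi]), List.tail_cons, ← h2,
        FreeGroup.mk_toWord, ← hw, inv_inv]

/-- the vertices -/
abbrev V : Type := G ⧸ A

/-- inclusion of the free group -/
abbrev il (w : F) : G := SemidirectProduct.inl w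

lemma phi_s (z : Multiplicative ℤ) (i : Fin 3) :
    ∃ k : ℤ, phi z (FreeGroup.of i) = FreeGroup.of i * ga ^ k := by
  fin_cases i
  · exact ⟨0, by rw [zpow_zero, mul_one]; exact phi_a z⟩
  · exact ⟨_, alpha_zpow_b _⟩
  · exact ⟨_, alpha_zpow_c _⟩

lemma mk_il_left (x : G) : ((il x.left : G) : V) = (x : V) := by
  rw [QuotientGroup.eq, mem_A]
  refine ⟨0, ?_⟩
  simp [SemidirectProduct.mul_left]

lemma mk_il_mul_zpow (w : F) (k : ℤ) : ((il (w * ga ^ k) : G) : V) = (il w : G) := by
  rw [QuotientGroup.eq, mem_A]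
  refine ⟨-k, ?_⟩
  simp [← map_inv, ← map_mul]

lemma left_of_mem {x y : G} (h : x⁻¹ * y ∈ A) : ∃ k : ℤ, y.left = x.left * ga ^ k := by
  rw [mem_A] at h
  obtain ⟨k, hk⟩ := h
  refine ⟨k, ?_⟩
  have hy : y = x * (x⁻¹ * y) := by group
  conv_lhs => rw [hy]
  rw [SemidirectProduct.mul_left, hk, phi_azpow]

/-- height of a vertex -/
def HV : V → ℕ := Quotient.lift (fun x : G => ht x.left) (by
  intro x y hxy
  have h : x⁻¹ * y ∈ A := QuotientGroup.leftRel_apply.1 hxy
  obtain ⟨k, hk⟩ := left_of_mem h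
  show ht x.left = ht y.left
  rw [hk, ht_mul_zpow])

/-- parent of a vertex -/
def PV : V → V := Quotient.lift (fun x : G => ((il (pr x.left) : G) : V)) (by
  intro x y hxy
  have h : x⁻¹ * y ∈ A := QuotientGroup.leftRel_apply.1 hxy
  obtain ⟨k, hk⟩ := left_of_mem h
  show ((il (pr x.left) : G) : V) = ((il (pr y.left) : G) : V)
  rw [hk, pr_mul_zpow])

lemma HV_mk (x : G) : HV (x : V) = ht x.left := rfl
lemma PV_mk (x : G) : PV (x : V) = ((il (pr x.left) : G) : V) := rfl

/-- oriented edges -/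
def Adj0 (u v : V) : Prop :=
  ∃ x : G, ∃ i : Fin 3, i ≠ 0 ∧ u = (x : V) ∧ v = ((x * il (FreeGroup.of i) : G) : V)

lemma Adj0_height {u v : V} (h : Adj0 u v) :
    (HV v = HV u + 1 ∧ PV v = u) ∨ (HV u = HV v + 1 ∧ PV u = v) := by
  obtain ⟨x, i, hi, rfl, rfl⟩ := h
  rw [HV_mk, HV_mk, PV_mk, PV_mk]
  obtain ⟨k, hk⟩ := phi_s x.right i
  have hl : (x * il (FreeGroup.of i)).left = x.left * FreeGroup.of i * ga ^ k := by
    rw [SemidirectProduct.mul_left, SemidirectProduct.left_inl, hk, mul_assoc]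
  rw [hl, ht_mul_zpow, pr_mul_zpow]
  rcases ht_pr_step x.left i hi with h | h
  · left
    refine ⟨h.1, ?_⟩
    rw [h.2, mk_il_left]
  · right
    refine ⟨h.1, ?_⟩
    rw [h.2, ← mk_il_left (x * il (FreeGroup.of i)), hl, mk_il_mul_zpow]

/-- the tree -/
def T : SimpleGraph V where
  Adj u v := Adj0 u v ∨ Adj0 v u
  symm := ⟨fun _ _ h => h.symm⟩
  loopless := ⟨by
    intro u h
    have h' : Adj0 u u := h.elim id id
    rcases Adj0_height h' with h1 | h1 <;> omega⟩

lemma T_acyclic : T.IsAcyclic := by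
  apply acyclic_of_height T HV PV
  rintro u v (h | h)
  · exact Adj0_height h
  · exact (Adj0_height h).symm

lemma reach (w : F) : ∀ y : G, T.Reachable (y : V) ((y * il w : G) : V) := by
  induction w using FreeGroup.induction_on with
  | C1 => intro y; simp
  | of i =>
    intro y
    by_cases hi : i = 0
    · subst hi
      have : ((y * il (FreeGroup.of 0) : G) : V) = (y : V) := by
        rw [eq_comm, QuotientGroup.eq, mem_A]
        refine ⟨1, ?_⟩
        rw [inv_mul_cancel_left]
        simp [ga]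
      rw [this]
    · exact SimpleGraph.Adj.reachable (Or.inl ⟨y, i, hi, rfl, rfl⟩)
  | inv_of i ih =>
    intro y
    have h := ih (y * il (FreeGroup.of i)⁻¹)
    have h2 : y * il (FreeGroup.of i)⁻¹ * il (FreeGroup.of i) = y := by
      simp [mul_assoc]
    rw [h2] at h
    exact h.symm
  | mul w1 w2 h1 h2 =>
    intro y
    have h3 := h2 (y * il w1)
    rw [mul_assoc, ← map_mul] at h3
    exact (h1 y).trans h3

lemma T_tree : T.IsTree := by
  refine ⟨?_, T_acyclic⟩
  rw [SimpleGraph.connected_iff_exists_forall_reachable]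
  refine ⟨((1 : G) : V), ?_⟩
  intro v
  induction v using QuotientGroup.induction_on with
  | H x =>
    have h := reach x.left 1
    rw [one_mul, mk_il_left] at h
    exact h

end Pool.Agent.R691.VRC
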