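import Pool.Agent.R691.VRC.Act

/-!
# The subgroup `⟨a⟩` of Gersten's group is not a virtual retract
(for MP_0fe979_al, S00750; helper691)
-/

set_option autoImplicit false

namespace Pool.Agent.R691.VRC

/-- the element `a` -/
def ea : G := il ga
/-- the element `b` -/
def eb : G := il gb
/-- the element `c` -/
def ec : G := il gc
/-- the element `t` -/
def et : G := SemidirectProduct.inr (Multiplicative.ofAdd 1)

lemma phi_one_apply (w : F) : phi (Multiplicative.ofAdd 1) w = alpha w := by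
  rw [phi_apply, toAdd_ofAdd, zpow_one]

lemma comm_at : Commute et ea := by
  show et * ea = ea * et
  apply SemidirectProduct.ext
  · simp only [et, ea, SemidirectProduct.mul_left, SemidirectProduct.left_inl,
      SemidirectProduct.left_inr, SemidirectProduct.right_inl, SemidirectProduct.right_inr,
      phi_one_apply, alpha_a, map_one, one_mul, mul_one]
  · simp [et, ea]

lemma rel_b : eb⁻¹ * et * eb = et * ea := by
  rw [mul_assoc, inv_mul_eq_iff_eq_mul]
  apply SemidirectProduct.ext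
  · simp only [et, ea, eb, SemidirectProduct.mul_left, SemidirectProduct.left_inl,
      SemidirectProduct.left_inr, SemidirectProduct.right_inl, SemidirectProduct.right_inr,
      phi_one_apply, alpha_a, alpha_b, map_one, one_mul, MulAut.one_apply]
  · simp [et, ea, eb]

lemma rel_c : ec⁻¹ * et * ec = et * ea ^ 2 := by
  rw [mul_assoc, inv_mul_eq_iff_eq_mul]
  have h2 : ea ^ 2 = il (ga ^ 2) := by
    unfold ea
    exact (map_pow _ _ _).symm
  rw [h2]
  have h3 : phi (Multiplicative.ofAdd 1) (ga ^ 2) = ga ^ 2 := by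
    rw [phi_one_apply, map_pow, alpha_a]
  apply SemidirectProduct.ext
  · simp only [et, ec, il, SemidirectProduct.mul_left, SemidirectProduct.left_inl,
      SemidirectProduct.left_inr, SemidirectProduct.right_inl, SemidirectProduct.right_inr,
      h3, map_one, one_mul, MulAut.one_apply]
    rw [phi_one_apply, alpha_c]
  · simp only [et, ec, il, SemidirectProduct.mul_right, SemidirectProduct.right_inl,
      SemidirectProduct.right_inr, one_mul, mul_one]

lemma zpowers_ea {x : G} (h : x ∈ Subgroup.zpowers ea) : x.right = 1 := by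
  obtain ⟨j, hj⟩ := h
  have hj' : ea ^ j = x := hj
  rw [← hj']
  unfold ea
  rw [← map_zpow]
  rfl

theorem not_vrc (K : Subgroup G) (hK : K.FiniteIndex) (hg : Subgroup.zpowers ea ≤ K)
    (r : ↥K →* G) (h1 : ∀ k : ↥K, r k ∈ Subgroup.zpowers ea)
    (h2 : ∀ k : ↥K, (k : G) ∈ Subgroup.zpowers ea → r k = (k : G)) : False := by
  classical
  -- the additive function
  let f : G → ℤ := fun x => if h : x ∈ K then Multiplicative.toAdd (psi1 (r ⟨x, h⟩).left) else 0
  have hf : ∀ x y : G, x ∈ K → y ∈ K → f (x * y) = f x + f y := by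
    intro x y hx hy
    simp only [f, dif_pos hx, dif_pos hy, dif_pos (K.mul_mem hx hy)]
    have e1 : (⟨x * y, K.mul_mem hx hy⟩ : K) = ⟨x, hx⟩ * ⟨y, hy⟩ := rfl
    rw [e1, map_mul, SemidirectProduct.mul_left, zpowers_ea (h1 ⟨x, hx⟩), map_one,
      MulAut.one_apply, map_mul, toAdd_mul]
  have hf1 : f 1 = 0 := by
    have := hf 1 1 K.one_mem K.one_mem
    rw [mul_one] at this
    omega
  have hfinv : ∀ x, x ∈ K → f x⁻¹ = - f x := by
    intro x hx
    have := hf x x⁻¹ hx (K.inv_mem hx)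
    rw [mul_inv_cancel, hf1] at this
    omega
  have hconj : ∀ n x, n ∈ K → x ∈ K → f (n * x * n⁻¹) = f x := by
    intro n x hn hx
    rw [hf _ _ (K.mul_mem hn hx) (K.inv_mem hn), hf _ _ hn hx, hfinv _ hn]
    ring
  have hfa : ∀ j : ℕ, f (ea ^ j) = j := by
    intro j
    have hm : ea ^ j ∈ Subgroup.zpowers ea := Subgroup.pow_mem _ (Subgroup.mem_zpowers ea) j
    have hmK : ea ^ j ∈ K := hg hm
    simp only [f, dif_pos hmK]
    rw [h2 ⟨ea ^ j, hmK⟩ hm]
    have e2 : (ea ^ j).left = ga ^ (j : ℤ) := by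
      unfold ea
      rw [← map_pow, SemidirectProduct.left_inl, zpow_natCast]
    show Multiplicative.toAdd (psi1 (ea ^ j).left) = j
    rw [e2, psi1_a_zpow, toAdd_ofAdd]
  -- the normal core
  set N := K.normalCore with hN
  have hNK : ∀ x, x ∈ N → x ∈ K := fun x hx => K.normalCore_le hx
  have : N.FiniteIndex := Subgroup.finiteIndex_normalCore K
  set m := N.index with hm
  have hm0 : m ≠ 0 := Subgroup.FiniteIndex.index_ne_zero
  have hpow : ∀ x : G, x ^ m ∈ N := fun x => Subgroup.pow_index_mem N x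
  have hNn : N.Normal := inferInstance
  have hcon : ∀ g x : G, x ∈ N → g * x * g⁻¹ ∈ N := fun g x hx => hNn.conj_mem x hx g
  have : Fintype (G ⧸ N) := Fintype.ofFinite _
  let c : G → (G ⧸ N) → ℤ := fun y q => f (q.out * y ^ m * q.out⁻¹)
  have hc : ∀ y g : G, c y (g : G ⧸ N) = f (g * y ^ m * g⁻¹) := by
    intro y g
    have ho : ((g : G ⧸ N).out : G ⧸ N) = (g : G ⧸ N) := Quotient.out_eq _
    have hn : ((g : G ⧸ N).out)⁻¹ * g ∈ N := QuotientGroup.eq.1 ho
    set o := (g : G ⧸ N).out with hod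
    show f (o * y ^ m * o⁻¹) = _
    have e3 : g * y ^ m * g⁻¹ = (o * (o⁻¹ * g) * o⁻¹) * (o * y ^ m * o⁻¹) *
        (o * (o⁻¹ * g) * o⁻¹)⁻¹ := by group
    rw [e3, hconj _ _ (hNK _ (hcon _ _ hn)) (hNK _ (hcon _ _ (hpow y)))]
  -- the relations
  have rb : ∀ q : G ⧸ N, c et (q * ((eb : G) : G ⧸ N)⁻¹) = c et q + c ea q := by
    intro q
    induction q using QuotientGroup.induction_on with
    | H g =>
      have e4 : (g : G ⧸ N) * ((eb : G) : G ⧸ N)⁻¹ = ((g * eb⁻¹ : G) : G ⧸ N) := rfl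
      rw [e4, hc, hc, hc, ← hf _ _ (hNK _ (hcon _ _ (hpow _))) (hNK _ (hcon _ _ (hpow _)))]
      congr 1
      have e5 : (eb⁻¹ * et * eb) ^ m = eb⁻¹ * et ^ m * eb := by
        have := conj_pow (a := eb⁻¹) (b := et) (i := m)
        rwa [inv_inv] at this
      have e6 : (et * ea) ^ m = et ^ m * ea ^ m := comm_at.mul_pow m
      have e7 : g * eb⁻¹ * et ^ m * (g * eb⁻¹)⁻¹ = g * (eb⁻¹ * et ^ m * eb) * g⁻¹ := by group
      rw [e7, ← e5, rel_b, e6]
      group
  have rc : ∀ q : G ⧸ N, c et (q * ((ec : G) : G ⧸ N)⁻¹) = c et q + 2 * c ea q := by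
    intro q
    induction q using QuotientGroup.induction_on with
    | H g =>
      have e4 : (g : G ⧸ N) * ((ec : G) : G ⧸ N)⁻¹ = ((g * ec⁻¹ : G) : G ⧸ N) := rfl
      rw [e4, hc, hc, hc, two_mul,
        ← hf _ _ (hNK _ (hcon _ _ (hpow _))) (hNK _ (hcon _ _ (hpow _))),
        ← hf _ _ (hNK _ (hcon _ _ (hpow _)))
          (K.mul_mem (hNK _ (hcon _ _ (hpow _))) (hNK _ (hcon _ _ (hpow _))))]
      congr 1
      have e5 : (ec⁻¹ * et * ec) ^ m = ec⁻¹ * et ^ m * ec := by
        have := conj_pow (a := ec⁻¹) (b := et) (i := m)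
        rwa [inv_inv] at this
      have e6 : (et * ea ^ 2) ^ m = et ^ m * (ea ^ 2) ^ m := (comm_at.pow_right 2).mul_pow m
      have e8 : (ea ^ 2) ^ m = ea ^ m * ea ^ m := by
        rw [← pow_mul, two_mul, pow_add]
      have e7 : g * ec⁻¹ * et ^ m * (g * ec⁻¹)⁻¹ = g * (ec⁻¹ * et ^ m * ec) * g⁻¹ := by group
      rw [e7, ← e5, rel_c, e6, e8]
      group
  have sb : ∑ q : G ⧸ N, (c et q) ^ 2 = ∑ q : G ⧸ N, (c et q + c ea q) ^ 2 := by
    rw [← Equiv.sum_comp (Equiv.mulRight (((eb : G) : G ⧸ N)⁻¹)) (fun q => (c et q) ^ 2)]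
    apply Finset.sum_congr rfl
    intro q _
    rw [Equiv.coe_mulRight, rb]
  have sc : ∑ q : G ⧸ N, (c et q) ^ 2 = ∑ q : G ⧸ N, (c et q + 2 * c ea q) ^ 2 := by
    rw [← Equiv.sum_comp (Equiv.mulRight (((ec : G) : G ⧸ N)⁻¹)) (fun q => (c et q) ^ 2)]
    apply Finset.sum_congr rfl
    intro q _
    rw [Equiv.coe_mulRight, rc]
  have eb' : ∑ q : G ⧸ N, (c et q + c ea q) ^ 2 = ∑ q : G ⧸ N, (c et q) ^ 2 +
      2 * ∑ q : G ⧸ N, c et q * c ea q + ∑ q : G ⧸ N, (c ea q) ^ 2 := by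
    rw [Finset.mul_sum, ← Finset.sum_add_distrib, ← Finset.sum_add_distrib]
    apply Finset.sum_congr rfl
    intro q _
    ring
  have ec' : ∑ q : G ⧸ N, (c et q + 2 * c ea q) ^ 2 = ∑ q : G ⧸ N, (c et q) ^ 2 +
      4 * ∑ q : G ⧸ N, c et q * c ea q + 4 * ∑ q : G ⧸ N, (c ea q) ^ 2 := by
    rw [Finset.mul_sum, Finset.mul_sum, ← Finset.sum_add_distrib, ← Finset.sum_add_distrib]
    apply Finset.sum_congr rfl
    intro q _
    ring
  have hz : ∑ q : G ⧸ N, (c ea q) ^ 2 = 0 := by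
    rw [eb'] at sb
    rw [ec'] at sc
    omega
  have hz1 := (Finset.sum_eq_zero_iff_of_nonneg (fun q _ => sq_nonneg (c ea q))).1 hz
    ((1 : G) : G ⧸ N) (Finset.mem_univ _)
  rw [hc, one_mul, inv_one, mul_one, hfa] at hz1
  have : (m : ℤ) ≠ 0 := by exact_mod_cast hm0
  exact this (pow_eq_zero_iff (two_ne_zero)|>.1 hz1)

end Pool.Agent.R691.VRC
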